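import Pool.Agent.H65.CO.Count
import Pool.Agent.H65.CO.Sharp
import Pool.Agent.H65.CO.Inc

/-!
# MP_d34661_co: polynomial graphs through a point of every column

`A` is any finite set of real numbers, `s` any function, `Y` any positive integer. The point set
consists of the `|A| Y` points `(x, s x + m)`, `x ∈ A`, `1 ≤ m ≤ Y`. The curves are graphs of
polynomials of degree at most `k < |A|` through a point of each of the `|A|` columns. Their number
is at most `C ∑_{r ≤ k} Y^(r+1) / |A|^(r(r+1)/2)`, which is sharp for every `|A|` and `Y`; the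
number of incidences is bounded accordingly, and by `C n^(4/3)` for `n` points and `n` curves.

Proof: determinants of differences of the polynomials at Fekete points of `A` are integers divided
by small numbers, and a packing lemma for sets with determinants bounded from below.
-/

namespace Pool.Agent.Results.MP_d34661_co.FullColumns

open Polynomial
open scoped Classical

/-- The columns over `A`: the points `(x, s x + m)` with `x ∈ A` and `1 ≤ m ≤ Y`. -/
noncomputable def columns (A : Finset ℝ) (s : ℝ → ℝ) (Y : ℕ) : Finset (ℝ × ℝ) :=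
  A.biUnion fun x => (Finset.Icc 1 Y).image fun m : ℕ => (x, s x + (m : ℝ))

/-- `γ` is the graph of a polynomial of degree at most `k`. -/
def IsGraph (k : ℕ) (γ : Set (ℝ × ℝ)) : Prop :=
  ∃ f : ℝ[X], f.natDegree ≤ k ∧ γ = {p : ℝ × ℝ | p.2 = f.eval p.1}

/-- `γ` contains a point of the column over every `x ∈ A`. -/
def MeetsAll (A : Finset ℝ) (s : ℝ → ℝ) (Y : ℕ) (γ : Set (ℝ × ℝ)) : Prop :=
  ∀ x ∈ A, ∃ m : ℕ, 1 ≤ m ∧ m ≤ Y ∧ (x, s x + (m : ℝ)) ∈ γ

/-- The number of incidences: pairs (point of `P`, curve of `Γ` through it). -/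
noncomputable def incidences (P : Finset (ℝ × ℝ)) (Γ : Finset (Set (ℝ × ℝ))) : ℕ :=
  Set.ncard {q : (ℝ × ℝ) × Set (ℝ × ℝ) | q.1 ∈ P ∧ q.2 ∈ Γ ∧ q.1 ∈ q.2}

private lemma mem_columns (A : Finset ℝ) (s : ℝ → ℝ) (Y : ℕ) (p : ℝ × ℝ) :
    p ∈ columns A s Y ↔ p.1 ∈ A ∧ ∃ m : ℕ, 1 ≤ m ∧ m ≤ Y ∧ p.2 = s p.1 + (m : ℝ) := by
  unfold columns
  rw [Finset.mem_biUnion]
  constructor
  · rintro ⟨x, hx, hp⟩
    rw [Finset.mem_image] at hp
    obtain ⟨m, hm, rfl⟩ := hp
    rw [Finset.mem_Icc] at hm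
    exact ⟨hx, m, hm.1, hm.2, rfl⟩
  · rintro ⟨hx, m, hm1, hm2, hp⟩
    refine ⟨p.1, hx, Finset.mem_image.2 ⟨m, Finset.mem_Icc.2 ⟨hm1, hm2⟩, ?_⟩⟩
    exact Prod.ext rfl hp.symm

private lemma card_columns (A : Finset ℝ) (s : ℝ → ℝ) (Y : ℕ) :
    (columns A s Y).card = A.card * Y := by
  unfold columns
  rw [Finset.card_biUnion]
  · have h1 : ∀ x ∈ A, ((Finset.Icc 1 Y).image fun m : ℕ => (x, s x + (m : ℝ))).card = Y := by
      intro x _
      rw [Finset.card_image_of_injective, Nat.card_Icc, Nat.add_sub_cancel]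
      intro m m' h
      have h2 := congrArg Prod.snd h
      simp only [add_right_inj, Nat.cast_inj] at h2
      exact h2
    rw [Finset.sum_congr rfl h1, Finset.sum_const, smul_eq_mul]
  · intro x _ y _ hxy
    rw [Function.onFun, Finset.disjoint_left]
    rintro p hp hq
    rw [Finset.mem_image] at hp hq
    obtain ⟨m, -, rfl⟩ := hp
    obtain ⟨m', -, h⟩ := hq
    exact hxy (congrArg Prod.fst h).symm

private lemma inc_eq (P : Finset (ℝ × ℝ)) (Γ : Finset (Set (ℝ × ℝ))) :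
    incidences P Γ = ∑ γ ∈ Γ, (P.filter fun p => p ∈ γ).card := by
  unfold incidences
  have h : {q : (ℝ × ℝ) × Set (ℝ × ℝ) | q.1 ∈ P ∧ q.2 ∈ Γ ∧ q.1 ∈ q.2} =
      (((P ×ˢ Γ).filter fun q => q.1 ∈ q.2 : Finset ((ℝ × ℝ) × Set (ℝ × ℝ))) :
        Set ((ℝ × ℝ) × Set (ℝ × ℝ))) := by
    ext q
    simp [and_assoc]
  rw [h, Set.ncard_coe_finset, Finset.card_filter, Finset.sum_product_right]
  refine Finset.sum_congr rfl fun γ _ => ?_
  rw [Finset.card_filter]

private lemma fibre_card (k : ℕ) (A : Finset ℝ) (s : ℝ → ℝ) (Y : ℕ) (γ : Set (ℝ × ℝ))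
    (hγ : IsGraph k γ) (hall : MeetsAll A s Y γ) :
    ((columns A s Y).filter fun p => p ∈ γ).card = A.card := by
  obtain ⟨f, -, rfl⟩ := hγ
  refine Finset.card_bij' (fun p _ => p.1) (fun x _ => (x, f.eval x)) ?_ ?_ ?_ ?_
  · intro p hp
    rw [Finset.mem_filter, mem_columns] at hp
    exact hp.1.1
  · intro x hx
    rw [Finset.mem_filter, mem_columns]
    obtain ⟨m, hm1, hm2, hm⟩ := hall x hx
    refine ⟨⟨hx, m, hm1, hm2, ?_⟩, rfl⟩
    exact hm.symm
  · intro p hp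
    rw [Finset.mem_filter] at hp
    exact Prod.ext rfl hp.2.symm
  · intro x _
    rfl

/-- **Main result.** -/
theorem result (k : ℕ) :
    (∃ C : ℝ, 0 < C ∧ ∀ (A : Finset ℝ) (s : ℝ → ℝ) (Y : ℕ), k < A.card → 1 ≤ Y →
      ∀ Γ : Finset (Set (ℝ × ℝ)), (∀ γ ∈ Γ, IsGraph k γ ∧ MeetsAll A s Y γ) →
        (columns A s Y).card = A.card * Y ∧
        incidences (columns A s Y) Γ = A.card * Γ.card ∧
        (Γ.card : ℝ) ≤ C * ∑ r ∈ Finset.range (k + 1),
          (Y : ℝ) ^ (r + 1) / (A.card : ℝ) ^ (r * (r + 1) / 2) ∧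
        (incidences (columns A s Y) Γ : ℝ) ≤ C * ∑ r ∈ Finset.range (k + 1),
          ((columns A s Y).card : ℝ) ^ (2 / ((r : ℝ) + 2)) *
            (Γ.card : ℝ) ^ (1 - 2 / (((r : ℝ) + 1) * (r + 2))) ∧
        (Γ.card ≤ (columns A s Y).card → (incidences (columns A s Y) Γ : ℝ) ≤
          C * (((columns A s Y).card : ℝ) ^ (2 / 3 : ℝ) * (Γ.card : ℝ) ^ (2 / 3 : ℝ) +
            (columns A s Y).card)) ∧
        (Γ.card = (columns A s Y).card → (incidences (columns A s Y) Γ : ℝ) ≤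
          C * (Γ.card : ℝ) ^ (4 / 3 : ℝ))) ∧
    (∃ c : ℝ, 0 < c ∧ ∀ M Y : ℕ, 1 ≤ M → 1 ≤ Y → ∃ Γ : Finset (Set (ℝ × ℝ)),
      (∀ γ ∈ Γ, IsGraph k γ ∧
        MeetsAll ((Finset.Icc 1 M).image fun x : ℕ => (x : ℝ)) (fun _ => 0) Y γ) ∧
      c * ∑ r ∈ Finset.range (k + 1), (Y : ℝ) ^ (r + 1) / (M : ℝ) ^ (r * (r + 1) / 2) ≤
        Γ.card) := by
  constructor
  · obtain ⟨C₀, hC₀, hup⟩ := Pool.Agent.H65.CO.count_upper k
    set C₁ : ℝ := |C₀| * (k + 1) + 1 with hC₁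
    have hC₁pos : 0 < C₁ := by positivity
    have hk1 : (1 : ℝ) ≤ (k : ℝ) + 1 := by
      have : (0 : ℝ) ≤ k := by positivity
      linarith
    set C : ℝ := C₀ + 2 * (C₁ * (k + 1)) with hC
    have hCC₀ : C₀ ≤ C := by
      have : 0 ≤ 2 * (C₁ * ((k : ℝ) + 1)) := by positivity
      linarith
    have hCC₁k : 2 * (C₁ * ((k : ℝ) + 1)) ≤ C := by linarith
    have hCC₁ : C₁ ≤ C := by nlinarith
    refine ⟨C, by positivity, ?_⟩
    intro A s Y hA hY Γ hΓ
    have hcardP := card_columns A s Y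
    have hinc : incidences (columns A s Y) Γ = A.card * Γ.card := by
      rw [inc_eq, Finset.sum_congr rfl fun γ hγ => fibre_card k A s Y γ (hΓ γ hγ).1 (hΓ γ hγ).2,
        Finset.sum_const, smul_eq_mul, mul_comm]
    have hM1 : (1 : ℝ) ≤ (A.card : ℝ) := by
      exact_mod_cast (lt_of_le_of_lt (Nat.zero_le k) hA)
    have hY1 : (1 : ℝ) ≤ (Y : ℝ) := by exact_mod_cast hY
    -- the polynomials
    set F : Set (ℝ × ℝ) → ℝ[X] := fun γ => if h : IsGraph k γ then h.choose else 0 with hF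
    have hFdeg : ∀ γ ∈ Γ, (F γ).natDegree ≤ k := by
      intro γ hγ
      simp only [hF, dif_pos (hΓ γ hγ).1]
      exact (hΓ γ hγ).1.choose_spec.1
    have hFgraph : ∀ γ ∈ Γ, γ = {p : ℝ × ℝ | p.2 = (F γ).eval p.1} := by
      intro γ hγ
      simp only [hF, dif_pos (hΓ γ hγ).1]
      exact (hΓ γ hγ).1.choose_spec.2
    have hFinj : Set.InjOn F (Γ : Set (Set (ℝ × ℝ))) := by
      intro γ hγ γ' hγ' h
      rw [hFgraph γ hγ, hFgraph γ' hγ', h]
    have hScard : (Γ.image F).card = Γ.card := Finset.card_image_of_injOn hFinj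
    have hcount := hup A hA s Y hY (Γ.image F) (by
      intro f hf
      rw [Finset.mem_image] at hf
      obtain ⟨γ, hγ, rfl⟩ := hf
      exact hFdeg γ hγ) (by
      intro f hf x hx
      rw [Finset.mem_image] at hf
      obtain ⟨γ, hγ, rfl⟩ := hf
      obtain ⟨m, hm1, hm2, hm⟩ := (hΓ γ hγ).2 x hx
      rw [hFgraph γ hγ] at hm
      exact ⟨m, hm1, hm2, hm.symm⟩)
    rw [hScard] at hcount
    have hsum0 : 0 ≤ ∑ r ∈ Finset.range (k + 1),
        (Y : ℝ) ^ (r + 1) / (A.card : ℝ) ^ (r * (r + 1) / 2) :=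
      Finset.sum_nonneg fun r _ => by positivity
    have hN : (Γ.card : ℝ) = 0 ∨ 1 ≤ (Γ.card : ℝ) := by
      rcases Nat.eq_zero_or_pos Γ.card with h | h
      · left; rw [h]; norm_num
      · right; exact_mod_cast h
    have hI : (incidences (columns A s Y) Γ : ℝ) = (A.card : ℝ) * Γ.card := by
      rw [hinc]; push_cast; ring
    have hPr : ((columns A s Y).card : ℝ) = (A.card : ℝ) * Y := by
      rw [hcardP]; push_cast; ring
    have hall := Pool.Agent.H65.CO.inc_all k C₀ (A.card : ℝ) (Y : ℝ) (Γ.card : ℝ) hM1 hY1 hN hcount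
    rw [← hC₁] at hall
    have hS0 : 0 ≤ ∑ r ∈ Finset.range (k + 1), ((A.card : ℝ) * Y) ^ (2 / ((r : ℝ) + 2)) *
        (Γ.card : ℝ) ^ (1 - 2 / (((r : ℝ) + 1) * (r + 2))) :=
      Finset.sum_nonneg fun r _ =>
        mul_nonneg (Real.rpow_nonneg (by positivity) _) (Real.rpow_nonneg (by positivity) _)
    have hsmall : Γ.card ≤ (columns A s Y).card → (A.card : ℝ) * Γ.card ≤
        C₁ * (k + 1) * (((A.card : ℝ) * Y) ^ (2 / 3 : ℝ) * (Γ.card : ℝ) ^ (2 / 3 : ℝ) +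
          (A.card : ℝ) * Y) := by
      intro hle
      rcases hN with h0 | h1
      · rw [h0, mul_zero]
        have h2 : 0 ≤ ((A.card : ℝ) * Y) ^ (2 / 3 : ℝ) * (0 : ℝ) ^ (2 / 3 : ℝ) :=
          mul_nonneg (Real.rpow_nonneg (by positivity) _) (Real.rpow_nonneg le_rfl _)
        have h3 : 0 ≤ (A.card : ℝ) * Y := by positivity
        exact mul_nonneg (by positivity) (by linarith)
      · have hle' : (Γ.card : ℝ) ≤ (A.card : ℝ) * Y := by
          rw [← hPr]; exact_mod_cast hle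
        have h2 := Pool.Agent.H65.CO.inc_small k ((A.card : ℝ) * Y) (Γ.card : ℝ) h1 hle'
        calc (A.card : ℝ) * Γ.card ≤ C₁ * ∑ r ∈ Finset.range (k + 1),
              ((A.card : ℝ) * Y) ^ (2 / ((r : ℝ) + 2)) *
              (Γ.card : ℝ) ^ (1 - 2 / (((r : ℝ) + 1) * (r + 2))) := hall
          _ ≤ C₁ * (((k : ℝ) + 1) * (((A.card : ℝ) * Y) ^ (2 / 3 : ℝ) *
              (Γ.card : ℝ) ^ (2 / 3 : ℝ) + (A.card : ℝ) * Y)) :=
              mul_le_mul_of_nonneg_left h2 hC₁pos.le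
          _ = _ := by ring
    refine ⟨hcardP, hinc, ?_, ?_, ?_, ?_⟩
    · exact le_trans hcount (mul_le_mul_of_nonneg_right hCC₀ hsum0)
    · rw [hI, hPr]
      exact le_trans hall (mul_le_mul_of_nonneg_right hCC₁ hS0)
    · intro hle
      rw [hI, hPr]
      have h0 : 0 < C₁ * ((k : ℝ) + 1) := by positivity
      have h1 : C₁ * ((k : ℝ) + 1) ≤ C := by linarith
      refine le_trans (hsmall hle) (mul_le_mul_of_nonneg_right h1 ?_)
      have h2 : 0 ≤ ((A.card : ℝ) * Y) ^ (2 / 3 : ℝ) * (Γ.card : ℝ) ^ (2 / 3 : ℝ) :=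
        mul_nonneg (Real.rpow_nonneg (by positivity) _) (Real.rpow_nonneg (by positivity) _)
      have h3 : 0 ≤ (A.card : ℝ) * Y := by positivity
      linarith
    · intro heq
      have h1 := hsmall heq.le
      rw [hI]
      have hNe : (Γ.card : ℝ) = (A.card : ℝ) * Y := by rw [← hPr]; exact_mod_cast heq
      rw [← hNe] at h1
      set n : ℝ := (Γ.card : ℝ) with hn
      have hn1 : 1 ≤ n := by
        rw [hNe]; nlinarith
      have hn0 : 0 < n := by linarith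
      have e0 : n ^ (2 / 3 : ℝ) * n ^ (2 / 3 : ℝ) = n ^ (4 / 3 : ℝ) := by
        rw [← Real.rpow_add hn0]; norm_num
      have e1 : n ≤ n ^ (4 / 3 : ℝ) := by
        calc n = n ^ (1 : ℝ) := (Real.rpow_one n).symm
          _ ≤ n ^ (4 / 3 : ℝ) := Real.rpow_le_rpow_of_exponent_le hn1 (by norm_num)
      rw [e0] at h1
      calc (A.card : ℝ) * n ≤ C₁ * (k + 1) * (n ^ (4 / 3 : ℝ) + n) := h1
        _ ≤ C₁ * (k + 1) * (n ^ (4 / 3 : ℝ) + n ^ (4 / 3 : ℝ)) := by gcongr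
        _ = 2 * (C₁ * (k + 1)) * n ^ (4 / 3 : ℝ) := by ring
        _ ≤ C * n ^ (4 / 3 : ℝ) :=
            mul_le_mul_of_nonneg_right hCC₁k (Real.rpow_nonneg hn0.le _)
  · obtain ⟨c, hc, hlow⟩ := Pool.Agent.H65.CO.count_lower k
    refine ⟨c, hc, ?_⟩
    intro M Y hM hY
    obtain ⟨S, hdeg, hval, hcard⟩ := hlow M hM Y hY
    set G : ℝ[X] → Set (ℝ × ℝ) := fun f => {p : ℝ × ℝ | p.2 = f.eval p.1} with hG
    have hGinj : Function.Injective G := by
      intro f g hfg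
      refine Polynomial.funext fun x => ?_
      have h1 : ((x, f.eval x) : ℝ × ℝ) ∈ G f := rfl
      rw [hfg] at h1
      exact h1
    refine ⟨S.image G, ?_, ?_⟩
    · intro γ hγ
      rw [Finset.mem_image] at hγ
      obtain ⟨f, hf, rfl⟩ := hγ
      refine ⟨⟨f, hdeg f hf, rfl⟩, ?_⟩
      intro x hx
      rw [Finset.mem_image] at hx
      obtain ⟨x', hx', rfl⟩ := hx
      obtain ⟨m, hm1, hm2, hm⟩ := hval f hf x' hx'
      refine ⟨m, hm1, hm2, ?_⟩
      show (0 : ℝ) + (m : ℝ) = f.eval (x' : ℝ)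
      rw [hm, zero_add]
    · rw [Finset.card_image_of_injective _ hGinj]
      exact hcard

end Pool.Agent.Results.MP_d34661_co.FullColumns
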