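import Pool.Agent.H39.HG.FinB
import Pool.Agent.H39.HA.FinD

/-!
# MP_d34661_co: incidences of well distributed point sets and algebraic curves, all `s`

`P` is a finite set of points of the unit square such that every closed axis-parallel square of
side `r` contains at most `h` points of `P`, where `h r ≤ 1`; `Γ` is a finite set of curves of degree at
most `k`, and no `s` points of `P` lie on `t` common curves of `Γ`. The constant `C` depends on `s`, `t`, `k` only.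

(1) `I(P, Γ) ≤ C h ^ (1/3) r ^ (-2/3) ((h |P|) ^ (1/3) |Γ| ^ (2/3) + h ^ (1/6) |Γ|)`.
(2) If `s ≤ 4` then `I(P, Γ) ≤ C h ^ (1/3) r ^ (-2/3) ((h |P|) ^ (1/3) |Γ| ^ (2/3) + |Γ|)`.
(3) If `r = |P| ^ (-1/2)` then `I(P, Γ) ≤ C (h ^ (2/3) |P| ^ (2/3) |Γ| ^ (2/3) + h ^ (1/2) |P| ^ (1/3) |Γ|)`.
(4) If `r = |P| ^ (-1/2)` and `|Γ| ≤ |P|` then `I(P, Γ) ≤ C h ^ (2/3) |P| ^ (2/3) |Γ| ^ (2/3)`; in particular
`I(P, Γ) ≤ C h ^ (2/3) n ^ (4/3)` for `n` points and `n` curves.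

Proof: for every incidence consider the largest scale at which the tube around the curve is rich in
points; an exact second moment shows that there are few rich tubes. The curves are cut into pieces on
which the third derivative is almost constant; after the deletion of few incidences four points of one
piece lie in one piece of only boundedly many curves, so inside the tubes the theorem of Pach and
Sharir for `s = 4` can be used at all scales.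
-/

namespace Pool.Agent.Results.MP_d34661_co.HomogeneousAllS

open scoped Classical

/-- `γ` is a curve of degree at most `k`: the real zero set of a non-zero polynomial of degree at
most `k`. -/
def IsCurve (k : ℕ) (γ : Set (ℝ × ℝ)) : Prop :=
  ∃ f : MvPolynomial (Fin 2) ℝ, f ≠ 0 ∧ f.totalDegree ≤ k ∧
    γ = {p : ℝ × ℝ | MvPolynomial.eval ![p.1, p.2] f = 0}

/-- The number of incidences: pairs (point of `P`, curve of `Γ` through it). -/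
noncomputable def incidences (P : Finset (ℝ × ℝ)) (Γ : Finset (Set (ℝ × ℝ))) : ℕ :=
  Set.ncard {q : (ℝ × ℝ) × Set (ℝ × ℝ) | q.1 ∈ P ∧ q.2 ∈ Γ ∧ q.1 ∈ q.2}

/-- There are no `s` points of `P` and `t` curves of `Γ` such that all these points lie on all
these curves. -/
def KFree (s t : ℕ) (P : Finset (ℝ × ℝ)) (Γ : Finset (Set (ℝ × ℝ))) : Prop :=
  ¬ ∃ S ⊆ P, ∃ T ⊆ Γ, S.card = s ∧ T.card = t ∧ ∀ p ∈ S, ∀ γ ∈ T, p ∈ γ

/-- `P` is contained in the unit square and every closed axis-parallel square of side `r`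
contains at most `h` points of `P`. -/
def Spread (h : ℕ) (r : ℝ) (P : Finset (ℝ × ℝ)) : Prop :=
  (∀ p ∈ P, (0 ≤ p.1 ∧ p.1 ≤ 1) ∧ 0 ≤ p.2 ∧ p.2 ≤ 1) ∧
  ∀ u v : ℝ, Set.ncard {p : ℝ × ℝ | p ∈ P ∧ (u ≤ p.1 ∧ p.1 ≤ u + r) ∧
    v ≤ p.2 ∧ p.2 ≤ v + r} ≤ h

private lemma inc_eq (P : Finset (ℝ × ℝ)) (Γ : Finset (Set (ℝ × ℝ))) :
    incidences P Γ = ∑ γ ∈ Γ, (P.filter fun p => p ∈ γ).card := by
  unfold incidences
  have h : {q : (ℝ × ℝ) × Set (ℝ × ℝ) | q.1 ∈ P ∧ q.2 ∈ Γ ∧ q.1 ∈ q.2} =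
      (((P ×ˢ Γ).filter fun q => q.1 ∈ q.2 : Finset ((ℝ × ℝ) × Set (ℝ × ℝ))) :
        Set ((ℝ × ℝ) × Set (ℝ × ℝ))) := by
    ext q
    simp [and_assoc]
  rw [h, Set.ncard_coe_finset, Finset.card_filter, Finset.sum_product_right]
  refine Finset.sum_congr rfl fun γ _ => ?_
  rw [Finset.card_filter]

private lemma hom_of (h : ℕ) (r : ℝ) (P : Finset (ℝ × ℝ)) (hP : Spread h r P) :
    H39.HG.Hom h r P := by
  intro u v
  have h1 := hP.2 u v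
  have h2 : {p : ℝ × ℝ | p ∈ P ∧ (u ≤ p.1 ∧ p.1 ≤ u + r) ∧ v ≤ p.2 ∧ p.2 ≤ v + r} =
      ((P.filter fun p => (u ≤ p.1 ∧ p.1 ≤ u + r) ∧ v ≤ p.2 ∧ p.2 ≤ v + r :
        Finset (ℝ × ℝ)) : Set (ℝ × ℝ)) := by
    ext p
    simp
  rw [h2, Set.ncard_coe_finset] at h1
  exact h1

private lemma kfree_four (s t : ℕ) (hs : s ≤ 4) (P : Finset (ℝ × ℝ))
    (Γ : Finset (Set (ℝ × ℝ))) (hK : KFree s t P Γ) : KFree 4 t P Γ := by
  rintro ⟨S, hS, T, hT, hS4, hTt, hall⟩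
  obtain ⟨S', hS', hc⟩ := Finset.exists_subset_card_eq (hs.trans hS4.ge)
  exact hK ⟨S', hS'.trans hS, T, hT, hc, hTt, fun p hp => hall p (hS' hp)⟩

private lemma reals (h n N : ℝ) (hh : 1 ≤ h) (hn : 1 ≤ n) :
    h ^ (1 / 3 : ℝ) * (n ^ (-(1 / 2) : ℝ)) ^ (-(2 / 3) : ℝ) *
      ((h * n) ^ (1 / 3 : ℝ) * N ^ (2 / 3 : ℝ) + h ^ (1 / 6 : ℝ) * N) =
      h ^ (2 / 3 : ℝ) * n ^ (2 / 3 : ℝ) * N ^ (2 / 3 : ℝ) +
        h ^ (1 / 2 : ℝ) * n ^ (1 / 3 : ℝ) * N := by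
  have hh0 : 0 < h := by linarith
  have hn0 : 0 < n := by linarith
  have e1 : (n ^ (-(1 / 2) : ℝ)) ^ (-(2 / 3) : ℝ) = n ^ (1 / 3 : ℝ) := by
    rw [← Real.rpow_mul hn0.le]; norm_num
  have e2 : (h * n) ^ (1 / 3 : ℝ) = h ^ (1 / 3 : ℝ) * n ^ (1 / 3 : ℝ) :=
    Real.mul_rpow hh0.le hn0.le
  have e3 : h ^ (1 / 3 : ℝ) * h ^ (1 / 3 : ℝ) = h ^ (2 / 3 : ℝ) := by
    rw [← Real.rpow_add hh0]; norm_num
  have e4 : n ^ (1 / 3 : ℝ) * n ^ (1 / 3 : ℝ) = n ^ (2 / 3 : ℝ) := by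
    rw [← Real.rpow_add hn0]; norm_num
  have e5 : h ^ (1 / 3 : ℝ) * h ^ (1 / 6 : ℝ) = h ^ (1 / 2 : ℝ) := by
    rw [← Real.rpow_add hh0]; norm_num
  rw [e1, e2, ← e3, ← e4, ← e5]
  ring

private lemma reals' (h n N : ℝ) (hh : 1 ≤ h) (hn : 1 ≤ n) (hN : 0 ≤ N) (hNn : N ≤ n) :
    h ^ (1 / 2 : ℝ) * n ^ (1 / 3 : ℝ) * N ≤
      h ^ (2 / 3 : ℝ) * n ^ (2 / 3 : ℝ) * N ^ (2 / 3 : ℝ) := by
  have hh0 : 0 < h := by linarith
  have hn0 : 0 < n := by linarith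
  have e1 : N = N ^ (1 / 3 : ℝ) * N ^ (2 / 3 : ℝ) := by
    rcases hN.eq_or_lt with h0 | h0
    · rw [← h0, Real.zero_rpow (by norm_num), zero_mul]
    · rw [← Real.rpow_add h0]; norm_num
  have e2 : N ^ (1 / 3 : ℝ) ≤ n ^ (1 / 3 : ℝ) := Real.rpow_le_rpow hN hNn (by norm_num)
  have e4 : n ^ (1 / 3 : ℝ) * n ^ (1 / 3 : ℝ) = n ^ (2 / 3 : ℝ) := by
    rw [← Real.rpow_add hn0]; norm_num
  have e5 : h ^ (1 / 2 : ℝ) ≤ h ^ (2 / 3 : ℝ) :=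
    Real.rpow_le_rpow_of_exponent_le hh (by norm_num)
  calc h ^ (1 / 2 : ℝ) * n ^ (1 / 3 : ℝ) * N
      = h ^ (1 / 2 : ℝ) * (n ^ (1 / 3 : ℝ) * N ^ (1 / 3 : ℝ)) * N ^ (2 / 3 : ℝ) := by
        conv_lhs => rw [e1]
        ring
    _ ≤ h ^ (2 / 3 : ℝ) * (n ^ (1 / 3 : ℝ) * n ^ (1 / 3 : ℝ)) * N ^ (2 / 3 : ℝ) := by
        have e6 : n ^ (1 / 3 : ℝ) * N ^ (1 / 3 : ℝ) ≤ n ^ (1 / 3 : ℝ) * n ^ (1 / 3 : ℝ) :=
          mul_le_mul_of_nonneg_left e2 (by positivity)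
        exact mul_le_mul_of_nonneg_right (mul_le_mul e5 e6 (by positivity) (by positivity))
          (by positivity)
    _ = h ^ (2 / 3 : ℝ) * n ^ (2 / 3 : ℝ) * N ^ (2 / 3 : ℝ) := by rw [e4]

/-- **Main theorem.** For all `s`, `t`, `k` there is a constant `C` such that for every `r > 0` and
natural `h ≥ 1` with `h r ≤ 1`, every finite set `P` of points of the unit square with at most `h` points
in every closed square of side `r`, and every finite set `Γ` of curves of degree at most `k` with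
`K_{s,t}`-free incidence graph: (1), (2), (3), (4) of the header. -/
theorem result (s t k : ℕ) : ∃ C : ℝ, ∀ (h : ℕ) (r : ℝ), 1 ≤ h → 0 < r → h * r ≤ 1 →
    ∀ (P : Finset (ℝ × ℝ)) (Γ : Finset (Set (ℝ × ℝ))),
    Spread h r P → (∀ γ ∈ Γ, IsCurve k γ) → KFree s t P Γ →
      (incidences P Γ : ℝ) ≤
        C * ((h : ℝ) ^ (1 / 3 : ℝ) * r ^ (-(2 / 3) : ℝ) *
          (((h : ℝ) * P.card) ^ (1 / 3 : ℝ) * (Γ.card : ℝ) ^ (2 / 3 : ℝ) +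
            (h : ℝ) ^ (1 / 6 : ℝ) * Γ.card)) ∧
      (s ≤ 4 → (incidences P Γ : ℝ) ≤
        C * ((h : ℝ) ^ (1 / 3 : ℝ) * r ^ (-(2 / 3) : ℝ) *
          (((h : ℝ) * P.card) ^ (1 / 3 : ℝ) * (Γ.card : ℝ) ^ (2 / 3 : ℝ) + Γ.card))) ∧
      (r = (P.card : ℝ) ^ (-(1 / 2) : ℝ) → (incidences P Γ : ℝ) ≤
        C * ((h : ℝ) ^ (2 / 3 : ℝ) * (P.card : ℝ) ^ (2 / 3 : ℝ) * (Γ.card : ℝ) ^ (2 / 3 : ℝ) +
          (h : ℝ) ^ (1 / 2 : ℝ) * (P.card : ℝ) ^ (1 / 3 : ℝ) * Γ.card)) ∧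
      (r = (P.card : ℝ) ^ (-(1 / 2) : ℝ) → Γ.card ≤ P.card → (incidences P Γ : ℝ) ≤
        C * ((h : ℝ) ^ (2 / 3 : ℝ) * (P.card : ℝ) ^ (2 / 3 : ℝ) *
          (Γ.card : ℝ) ^ (2 / 3 : ℝ))) := by
  obtain ⟨C4, hC4, h4⟩ := H39.HG.finB4 t k
  obtain ⟨C5, hC5, h5⟩ := H39.HA.finD (max s 4) t k (le_max_right _ _)
  have hmono : ∀ (P : Finset (ℝ × ℝ)) (Γ : Finset (Set (ℝ × ℝ))), KFree s t P Γ →
      KFree (max s 4) t P Γ := by
    rintro P Γ hK ⟨S, hS, T, hT, hSc, hTt, hall⟩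
    have hle : s ≤ S.card := (le_max_left s 4).trans hSc.ge
    obtain ⟨S', hS', hc⟩ := Finset.exists_subset_card_eq hle
    exact hK ⟨S', hS'.trans hS, T, hT, hc, hTt, fun p hp => hall p (hS' hp)⟩
  refine ⟨C4 + 2 * C5, ?_⟩
  intro h r hh hr hhr P Γ hP hΓ hK
  have hh1 : (1 : ℝ) ≤ h := by exact_mod_cast hh
  have a1 : (incidences P Γ : ℝ) ≤
      C5 * ((h : ℝ) ^ (1 / 3 : ℝ) * r ^ (-(2 / 3) : ℝ) *
        (((h : ℝ) * P.card) ^ (1 / 3 : ℝ) * (Γ.card : ℝ) ^ (2 / 3 : ℝ) +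
          (h : ℝ) ^ (1 / 6 : ℝ) * Γ.card)) := by
    rw [inc_eq]
    exact h5 h r hh hr hhr P Γ hP.1 (hom_of h r P hP) hΓ (hmono P Γ hK)
  have a3 : r = (P.card : ℝ) ^ (-(1 / 2) : ℝ) → (incidences P Γ : ℝ) ≤
      C5 * ((h : ℝ) ^ (2 / 3 : ℝ) * (P.card : ℝ) ^ (2 / 3 : ℝ) * (Γ.card : ℝ) ^ (2 / 3 : ℝ) +
        (h : ℝ) ^ (1 / 2 : ℝ) * (P.card : ℝ) ^ (1 / 3 : ℝ) * Γ.card) ∧ 1 ≤ P.card := by
    intro hrP
    rcases P.eq_empty_or_nonempty with rfl | hne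
    · rw [Finset.card_empty, Nat.cast_zero, Real.zero_rpow (by norm_num)] at hrP
      exact absurd hrP hr.ne'
    refine ⟨a1.trans (le_of_eq ?_), hne.card_pos⟩
    rw [hrP, reals h P.card Γ.card hh1 (by exact_mod_cast hne.card_pos)]
  refine ⟨?_, ?_, ?_, ?_⟩
  · refine a1.trans (mul_le_mul_of_nonneg_right (by linarith) (by positivity))
  · intro hs4
    rw [inc_eq]
    refine (h4 h r hh hr hhr P Γ hP.1 (hom_of h r P hP) hΓ (kfree_four s t hs4 P Γ hK)).trans ?_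
    exact mul_le_mul_of_nonneg_right (by linarith) (by positivity)
  · intro hrP
    exact (a3 hrP).1.trans (mul_le_mul_of_nonneg_right (by linarith) (by positivity))
  · intro hrP hcard
    obtain ⟨b1, b2⟩ := a3 hrP
    have b3 := reals' h P.card Γ.card hh1 (by exact_mod_cast b2) (by positivity)
      (by exact_mod_cast hcard)
    have b4 : (0 : ℝ) ≤ (h : ℝ) ^ (2 / 3 : ℝ) * (P.card : ℝ) ^ (2 / 3 : ℝ) *
      (Γ.card : ℝ) ^ (2 / 3 : ℝ) := by positivity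
    refine b1.trans ?_
    calc C5 * ((h : ℝ) ^ (2 / 3 : ℝ) * (P.card : ℝ) ^ (2 / 3 : ℝ) * (Γ.card : ℝ) ^ (2 / 3 : ℝ) +
          (h : ℝ) ^ (1 / 2 : ℝ) * (P.card : ℝ) ^ (1 / 3 : ℝ) * Γ.card)
        ≤ C5 * ((h : ℝ) ^ (2 / 3 : ℝ) * (P.card : ℝ) ^ (2 / 3 : ℝ) *
            (Γ.card : ℝ) ^ (2 / 3 : ℝ) + (h : ℝ) ^ (2 / 3 : ℝ) * (P.card : ℝ) ^ (2 / 3 : ℝ) *
            (Γ.card : ℝ) ^ (2 / 3 : ℝ)) :=
          mul_le_mul_of_nonneg_left (add_le_add le_rfl b3) hC5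
      _ = 2 * C5 * ((h : ℝ) ^ (2 / 3 : ℝ) * (P.card : ℝ) ^ (2 / 3 : ℝ) *
            (Γ.card : ℝ) ^ (2 / 3 : ℝ)) := by ring
      _ ≤ (C4 + 2 * C5) * ((h : ℝ) ^ (2 / 3 : ℝ) * (P.card : ℝ) ^ (2 / 3 : ℝ) *
            (Γ.card : ℝ) ^ (2 / 3 : ℝ)) := mul_le_mul_of_nonneg_right (by linarith) b4

end Pool.Agent.Results.MP_d34661_co.HomogeneousAllS
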