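import Pool.Agent.H39.ND.FinN
import Pool.Agent.H39.ND.Circ

/-!
# MP_d34661_co: circles, and curves of any three-parameter linear family, whose coefficient set has a small sumset

`f₀, f₁, f₂, f₃` are functions of the plane (for instance polynomials of degree at most `k`), `A` is a
finite set of coefficient vectors `q`, `Γ` the set of the curves `f₀ + q₁ f₁ + q₂ f₂ + q₃ f₃ = 0`, `q ∈ A`, and
`P` is ANY finite set of points such that the vectors `(f₁, f₂, f₃)(p)`, `p ∈ P`, which are not zero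
are proportional to at most `m` of them. If no `s` points of `P` are on `t` common curves of `Γ`, then
for every non-empty finite `T`

`I(P, Γ) ≤ C (|A+T| |P|^(2/3) / |T|^(1/3) + |P| + |A+T|² / |T|)`,

and with `T = A`: `I(P, Γ) ≤ C (K |P|^(2/3) |A|^(2/3) + |P| + K² |A|)` if `|A+A| ≤ K |A|`.
For circles `x² + y² = a x + b y + c` the same holds without any hypothesis on `P` and `Γ`.
-/

namespace Pool.Agent.Results.MP_d34661_co.NetsSmallSumset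

open scoped Classical

/-- The number of incidences: pairs (point of `P`, curve of `Γ` through it). -/
noncomputable def incidences (P : Finset (ℝ × ℝ)) (Γ : Finset (Set (ℝ × ℝ))) : ℕ :=
  Set.ncard {q : (ℝ × ℝ) × Set (ℝ × ℝ) | q.1 ∈ P ∧ q.2 ∈ Γ ∧ q.1 ∈ q.2}

/-- There are no `s` points of `P` and `t` curves of `Γ` such that all these points lie on all
these curves. -/
def KFree (s t : ℕ) (P : Finset (ℝ × ℝ)) (Γ : Finset (Set (ℝ × ℝ))) : Prop :=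
  ¬ ∃ S ⊆ P, ∃ T ⊆ Γ, S.card = s ∧ T.card = t ∧ ∀ p ∈ S, ∀ γ ∈ T, p ∈ γ

/-- The number of elements of the sumset `A + T`. -/
noncomputable def sumCard (A T : Finset (ℝ × ℝ × ℝ)) : ℕ :=
  Set.ncard {v : ℝ × ℝ × ℝ | ∃ a ∈ A, ∃ t ∈ T, v = a + t}

/-- The curve `f₀ + q₁ f₁ + q₂ f₂ + q₃ f₃ = 0`. -/
def curve (f : Fin 4 → ℝ × ℝ → ℝ) (q : ℝ × ℝ × ℝ) : Set (ℝ × ℝ) :=
  {p | f 0 p + q.1 * f 1 p + q.2.1 * f 2 p + q.2.2 * f 3 p = 0}

/-- The vector `(f₁, f₂, f₃)(p)`. -/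
def vec (f : Fin 4 → ℝ × ℝ → ℝ) (p : ℝ × ℝ) : ℝ × ℝ × ℝ := (f 1 p, f 2 p, f 3 p)

/-- Every non-zero vector `(f₁, f₂, f₃)(p)`, `p ∈ P`, is proportional to at most `m` vectors
`(f₁, f₂, f₃)(p')`, `p' ∈ P` (itself included, zero vectors excluded). -/
def Mult (m : ℕ) (f : Fin 4 → ℝ × ℝ → ℝ) (P : Finset (ℝ × ℝ)) : Prop :=
  ∀ p ∈ P, vec f p ≠ 0 →
    Set.ncard {p' : ℝ × ℝ | p' ∈ P ∧ vec f p' ≠ 0 ∧ ∃ r : ℝ, vec f p' = r • vec f p} ≤ m

/-- The circle `x² + y² = a x + b y + c`, `q = (a, b, c)`. -/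
def circle (q : ℝ × ℝ × ℝ) : Set (ℝ × ℝ) :=
  {p | p.1 ^ 2 + p.2 ^ 2 = q.1 * p.1 + q.2.1 * p.2 + q.2.2}

open scoped Pointwise in
private lemma sumCard_eq (A T : Finset (ℝ × ℝ × ℝ)) : sumCard A T = (A + T).card := by
  unfold sumCard
  rw [← Set.ncard_coe_finset]
  congr 1
  ext v
  simp only [Set.mem_ofPred_eq, Finset.coe_add, Set.mem_add, Finset.mem_coe]
  constructor
  · rintro ⟨p, hp, t, ht, rfl⟩
    exact ⟨p, hp, t, ht, rfl⟩
  · rintro ⟨p, hp, t, ht, rfl⟩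
    exact ⟨p, hp, t, ht, rfl⟩

private lemma inc_eq (P : Finset (ℝ × ℝ)) (Γ : Finset (Set (ℝ × ℝ))) :
    incidences P Γ = ∑ p ∈ P, (Γ.filter fun γ => p ∈ γ).card := by
  unfold incidences
  have h : {q : (ℝ × ℝ) × Set (ℝ × ℝ) | q.1 ∈ P ∧ q.2 ∈ Γ ∧ q.1 ∈ q.2} =
      (((P ×ˢ Γ).filter fun q => q.1 ∈ q.2 : Finset ((ℝ × ℝ) × Set (ℝ × ℝ))) :
        Set ((ℝ × ℝ) × Set (ℝ × ℝ))) := by
    ext q
    simp [and_assoc]
  rw [h, Set.ncard_coe_finset, Finset.card_filter, Finset.sum_product]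
  refine Finset.sum_congr rfl fun γ _ => ?_
  rw [Finset.card_filter]

private lemma reps (A : Finset (ℝ × ℝ × ℝ)) (g : ℝ × ℝ × ℝ → Set (ℝ × ℝ)) :
    ∃ A' ⊆ A, Set.InjOn g A' ∧ A'.image g = A.image g := by
  obtain ⟨s, hs, hb⟩ := Set.exists_subset_bijOn (A : Set (ℝ × ℝ × ℝ)) g
  have hf : s.Finite := A.finite_toSet.subset hs
  refine ⟨hf.toFinset, ?_, ?_, ?_⟩
  · intro x hx
    exact hs (hf.mem_toFinset.1 hx)
  · rw [hf.coe_toFinset]
    exact hb.injOn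
  · apply Finset.coe_injective
    rw [Finset.coe_image, Finset.coe_image, hf.coe_toFinset]
    exact hb.image_eq

private lemma inc_reps (P : Finset (ℝ × ℝ)) (A' : Finset (ℝ × ℝ × ℝ))
    (g : ℝ × ℝ × ℝ → Set (ℝ × ℝ)) (hg : Set.InjOn g A') :
    incidences P (A'.image g) = ∑ p ∈ P, (A'.filter fun q => p ∈ g q).card := by
  rw [inc_eq]
  refine Finset.sum_congr rfl fun p _ => ?_
  rw [Finset.filter_image]
  exact Finset.card_image_of_injOn (hg.mono fun x hx => (Finset.mem_filter.1 hx).1)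

private lemma kf (s t : ℕ) (P : Finset (ℝ × ℝ)) (A' : Finset (ℝ × ℝ × ℝ))
    (g : ℝ × ℝ × ℝ → Set (ℝ × ℝ)) (hg : Set.InjOn g A') (hK : KFree s t P (A'.image g))
    (B : Finset (ℝ × ℝ × ℝ)) (hB : B ⊆ A') (ht : t ≤ B.card) :
    (P.filter fun p => ∀ q ∈ B, p ∈ g q).card ≤ s := by
  by_contra hlt
  push Not at hlt
  obtain ⟨S, hS, hSc⟩ := Finset.exists_subset_card_eq hlt.le
  have hBi : (B.image g).card = B.card :=
    Finset.card_image_of_injOn (hg.mono fun x hx => hB hx)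
  obtain ⟨T, hT, hTc⟩ := Finset.exists_subset_card_eq (ht.trans hBi.ge)
  refine hK ⟨S, hS.trans (Finset.filter_subset _ _), T, hT.trans (Finset.image_subset_image hB),
    hSc, hTc, ?_⟩
  intro p hp γ hγ
  obtain ⟨q, hq, rfl⟩ := Finset.mem_image.1 (hT hγ)
  exact (Finset.mem_filter.1 (hS hp)).2 q hq

/-- from the bound for all `T` to the bound with `K` -/
private lemma from_T (C I : ℝ) (hC : 0 ≤ C) (n : ℕ) (A : Finset (ℝ × ℝ × ℝ))
    (h0 : A = ∅ → I = 0)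
    (h : ∀ T : Finset (ℝ × ℝ × ℝ), T.Nonempty →
      I ≤ C * ((sumCard A T : ℝ) * (n : ℝ) ^ (2 / 3 : ℝ) / (T.card : ℝ) ^ (1 / 3 : ℝ) + n +
            (sumCard A T : ℝ) ^ 2 / T.card)) (K : ℝ) (hK : (sumCard A A : ℝ) ≤ K * A.card) :
    I ≤ C * (K * (n : ℝ) ^ (2 / 3 : ℝ) * (A.card : ℝ) ^ (2 / 3 : ℝ) + n + K ^ 2 * A.card) := by
  rcases A.eq_empty_or_nonempty with rfl | hne
  · rw [h0 rfl]
    rw [Finset.card_empty, Nat.cast_zero, Real.zero_rpow (by norm_num), mul_zero, mul_zero]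
    positivity
  · refine (h A hne).trans (mul_le_mul_of_nonneg_left ?_ hC)
    have hA : (0 : ℝ) < A.card := by exact_mod_cast hne.card_pos
    have hs0 : (0 : ℝ) ≤ sumCard A A := Nat.cast_nonneg _
    have e1 : (A.card : ℝ) ^ (2 / 3 : ℝ) * (A.card : ℝ) ^ (1 / 3 : ℝ) = A.card := by
      rw [← Real.rpow_add hA]; norm_num
    have e0 : 0 < (A.card : ℝ) ^ (1 / 3 : ℝ) := Real.rpow_pos_of_pos hA _
    have en : 0 ≤ (n : ℝ) ^ (2 / 3 : ℝ) := by positivity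
    have h1 : (sumCard A A : ℝ) * (n : ℝ) ^ (2 / 3 : ℝ) / (A.card : ℝ) ^ (1 / 3 : ℝ) ≤
        K * (n : ℝ) ^ (2 / 3 : ℝ) * (A.card : ℝ) ^ (2 / 3 : ℝ) := by
      rw [div_le_iff₀ e0]
      calc (sumCard A A : ℝ) * (n : ℝ) ^ (2 / 3 : ℝ) ≤ (K * A.card) * (n : ℝ) ^ (2 / 3 : ℝ) :=
            mul_le_mul_of_nonneg_right hK en
        _ = (K * ((A.card : ℝ) ^ (2 / 3 : ℝ) * (A.card : ℝ) ^ (1 / 3 : ℝ))) *
              (n : ℝ) ^ (2 / 3 : ℝ) := by rw [e1]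
        _ = K * (n : ℝ) ^ (2 / 3 : ℝ) * (A.card : ℝ) ^ (2 / 3 : ℝ) *
              (A.card : ℝ) ^ (1 / 3 : ℝ) := by ring
    have h2 : (sumCard A A : ℝ) ^ 2 / A.card ≤ K ^ 2 * A.card := by
      rw [div_le_iff₀ hA]
      calc (sumCard A A : ℝ) ^ 2 ≤ (K * A.card) ^ 2 := pow_le_pow_left₀ hs0 hK 2
        _ = K ^ 2 * A.card * A.card := by ring
    linarith

open scoped Pointwise in
private lemma mono (C : ℝ) (hC : 0 ≤ C) (n : ℕ) (A A' T : Finset (ℝ × ℝ × ℝ)) (hA : A' ⊆ A) :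
    C * (((A' + T).card : ℝ) * (n : ℝ) ^ (2 / 3 : ℝ) / (T.card : ℝ) ^ (1 / 3 : ℝ) + n +
        ((A' + T).card : ℝ) ^ 2 / T.card) ≤
      C * ((sumCard A T : ℝ) * (n : ℝ) ^ (2 / 3 : ℝ) / (T.card : ℝ) ^ (1 / 3 : ℝ) + n +
        (sumCard A T : ℝ) ^ 2 / T.card) := by
  have h : ((A' + T).card : ℝ) ≤ sumCard A T := by
    rw [sumCard_eq]
    exact_mod_cast Finset.card_le_card (Finset.add_subset_add_right hA)
  have h0 : (0 : ℝ) ≤ (A' + T).card := Nat.cast_nonneg _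
  gcongr

private lemma gen (s t m : ℕ) : ∃ C : ℝ, 0 ≤ C ∧ ∀ (f : Fin 4 → ℝ × ℝ → ℝ) (P : Finset (ℝ × ℝ))
    (A : Finset (ℝ × ℝ × ℝ)), Mult m f P → KFree s t P (A.image (curve f)) →
      ∀ T : Finset (ℝ × ℝ × ℝ), T.Nonempty →
        (incidences P (A.image (curve f)) : ℝ) ≤
          C * ((sumCard A T : ℝ) * (P.card : ℝ) ^ (2 / 3 : ℝ) / (T.card : ℝ) ^ (1 / 3 : ℝ) + P.card +
            (sumCard A T : ℝ) ^ 2 / T.card) := by
  obtain ⟨C, hC, h⟩ := H39.ND.finN s t m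
  refine ⟨C, hC, fun f P A hm hK T hT => ?_⟩
  obtain ⟨A', hA', hg, him⟩ := reps A (curve f)
  rw [← him] at hK ⊢
  rw [inc_reps P A' _ hg]
  have hmem : ∀ p q, p ∈ curve f q ↔ H39.ND.ip q (vec f p) = - f 0 p := by
    intro p q
    simp only [curve, vec, H39.ND.ip, Set.mem_ofPred_eq]
    constructor
    · intro h; linarith
    · intro h; linarith
  have e : ∀ p, (A'.filter fun q => p ∈ curve f q) = H39.ND.pl A' (vec f p) (- f 0 p) := by
    intro p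
    unfold H39.ND.pl
    apply Finset.filter_congr
    intro q _
    exact hmem p q
  simp only [e]
  refine (h (ℝ × ℝ) P (vec f) (fun p => - f 0 p) A' T hT ?_ ?_).trans (mono C hC _ A A' T hA')
  · intro p hp hne
    have h1 := hm p hp hne
    have h2 : {p' : ℝ × ℝ | p' ∈ P ∧ vec f p' ≠ 0 ∧ ∃ r : ℝ, vec f p' = r • vec f p} =
        ((P.filter fun p' => vec f p' ≠ 0 ∧ H39.ND.Par (vec f p') (vec f p) :
          Finset (ℝ × ℝ)) : Set (ℝ × ℝ)) := by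
      ext p'
      simp only [Set.mem_ofPred_eq, Finset.coe_filter]
      constructor
      · rintro ⟨a, b, r, hr⟩
        exact ⟨a, b, by rw [hr]; exact H39.ND.smul_par r _⟩
      · rintro ⟨a, b, hr⟩
        exact ⟨a, b, H39.ND.par_smul hne hr⟩
    rw [h2, Set.ncard_coe_finset] at h1
    exact h1
  · intro B hB ht
    have h1 := kf s t P A' (curve f) hg hK B hB ht
    simp only [hmem] at h1
    exact h1

private lemma genC : ∃ C : ℝ, 0 ≤ C ∧ ∀ (P : Finset (ℝ × ℝ))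
    (A : Finset (ℝ × ℝ × ℝ)), ∀ T : Finset (ℝ × ℝ × ℝ), T.Nonempty →
        (incidences P (A.image circle) : ℝ) ≤
          C * ((sumCard A T : ℝ) * (P.card : ℝ) ^ (2 / 3 : ℝ) / (T.card : ℝ) ^ (1 / 3 : ℝ) + P.card +
            (sumCard A T : ℝ) ^ 2 / T.card) := by
  obtain ⟨C, hC, h⟩ := H39.ND.finN 2 2 1
  refine ⟨C, hC, fun P A T hT => ?_⟩
  obtain ⟨A', hA', hg, him⟩ := reps A circle
  rw [← him]
  rw [inc_reps P A' _ hg]
  have hmem : ∀ p q, p ∈ circle q ↔ H39.ND.ip q (H39.ND.lift p) = p.1 ^ 2 + p.2 ^ 2 := by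
    intro p q
    simp only [circle, H39.ND.lift, H39.ND.ip, Set.mem_ofPred_eq, mul_one]
    exact eq_comm
  have e : ∀ p, (A'.filter fun q => p ∈ circle q) =
      H39.ND.pl A' (H39.ND.lift p) (p.1 ^ 2 + p.2 ^ 2) := by
    intro p
    unfold H39.ND.pl
    apply Finset.filter_congr
    intro q _
    exact hmem p q
  simp only [e]
  refine (h (ℝ × ℝ) P H39.ND.lift (fun p => p.1 ^ 2 + p.2 ^ 2) A' T hT ?_ ?_).trans
    (mono C hC _ A A' T hA')
  · intro p _ _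
    rw [Finset.card_le_one]
    intro a ha b hb
    rw [Finset.mem_filter] at ha hb
    rw [H39.ND.lift_par ha.2.2, H39.ND.lift_par hb.2.2]
  · intro B _ ht
    exact H39.ND.circ_kf P B ht

private lemma inc_empty (P : Finset (ℝ × ℝ)) (A : Finset (ℝ × ℝ × ℝ))
    (g : ℝ × ℝ × ℝ → Set (ℝ × ℝ)) (h : A = ∅) : (incidences P (A.image g) : ℝ) = 0 := by
  rw [h, Finset.image_empty, inc_eq]
  simp

/-- **Main theorem.** The bounds of the header: the first part for the curves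
`f₀ + q₁ f₁ + q₂ f₂ + q₃ f₃ = 0`, `q ∈ A`, the second part for circles. -/
theorem result (s t m : ℕ) : ∃ C : ℝ,
    (∀ (f : Fin 4 → ℝ × ℝ → ℝ) (P : Finset (ℝ × ℝ)) (A : Finset (ℝ × ℝ × ℝ)), Mult m f P →
      KFree s t P (A.image (curve f)) →
      (∀ T : Finset (ℝ × ℝ × ℝ), T.Nonempty →
        (incidences P (A.image (curve f)) : ℝ) ≤
          C * ((sumCard A T : ℝ) * (P.card : ℝ) ^ (2 / 3 : ℝ) / (T.card : ℝ) ^ (1 / 3 : ℝ) + P.card +
            (sumCard A T : ℝ) ^ 2 / T.card)) ∧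
      ∀ K : ℝ, (sumCard A A : ℝ) ≤ K * A.card →
        (incidences P (A.image (curve f)) : ℝ) ≤
          C * (K * (P.card : ℝ) ^ (2 / 3 : ℝ) * (A.card : ℝ) ^ (2 / 3 : ℝ) + P.card +
            K ^ 2 * A.card)) ∧
    (∀ (P : Finset (ℝ × ℝ)) (A : Finset (ℝ × ℝ × ℝ)),
      (∀ T : Finset (ℝ × ℝ × ℝ), T.Nonempty →
        (incidences P (A.image circle) : ℝ) ≤
          C * ((sumCard A T : ℝ) * (P.card : ℝ) ^ (2 / 3 : ℝ) / (T.card : ℝ) ^ (1 / 3 : ℝ) + P.card +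
            (sumCard A T : ℝ) ^ 2 / T.card)) ∧
      ∀ K : ℝ, (sumCard A A : ℝ) ≤ K * A.card →
        (incidences P (A.image circle) : ℝ) ≤
          C * (K * (P.card : ℝ) ^ (2 / 3 : ℝ) * (A.card : ℝ) ^ (2 / 3 : ℝ) + P.card +
            K ^ 2 * A.card)) := by
  obtain ⟨C₁, hC₁, h₁⟩ := gen s t m
  obtain ⟨C₂, hC₂, h₂⟩ := genC
  have pos : ∀ (n : ℕ) (A T : Finset (ℝ × ℝ × ℝ)),
      0 ≤ ((sumCard A T : ℝ) * (n : ℝ) ^ (2 / 3 : ℝ) / (T.card : ℝ) ^ (1 / 3 : ℝ) + n +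
            (sumCard A T : ℝ) ^ 2 / T.card) := by
    intro n A T
    positivity
  refine ⟨C₁ + C₂, ?_, ?_⟩
  · intro f P A hm hK
    have h : ∀ T : Finset (ℝ × ℝ × ℝ), T.Nonempty →
        (incidences P (A.image (curve f)) : ℝ) ≤
          (C₁ + C₂) * ((sumCard A T : ℝ) * (P.card : ℝ) ^ (2 / 3 : ℝ) /
            (T.card : ℝ) ^ (1 / 3 : ℝ) + P.card + (sumCard A T : ℝ) ^ 2 / T.card) :=
      fun T hT => (h₁ f P A hm hK T hT).trans
        (mul_le_mul_of_nonneg_right (by linarith) (pos _ _ _))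
    exact ⟨h, from_T _ _ (by linarith) _ A (inc_empty P A _) h⟩
  · intro P A
    have h : ∀ T : Finset (ℝ × ℝ × ℝ), T.Nonempty →
        (incidences P (A.image circle) : ℝ) ≤
          (C₁ + C₂) * ((sumCard A T : ℝ) * (P.card : ℝ) ^ (2 / 3 : ℝ) /
            (T.card : ℝ) ^ (1 / 3 : ℝ) + P.card + (sumCard A T : ℝ) ^ 2 / T.card) :=
      fun T hT => (h₂ P A T hT).trans
        (mul_le_mul_of_nonneg_right (by linarith) (pos _ _ _))
    exact ⟨h, from_T _ _ (by linarith) _ A (inc_empty P A _) h⟩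

end Pool.Agent.Results.MP_d34661_co.NetsSmallSumset
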