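import Pool.Agent.H22.PS.Main

/-!
# MP_d34661_co: incidences between points with a small sumset and algebraic curves

`P` finite point set, `Γ` finite set of curves of degree at most `k`, no `s` points on `t` common
curves. For every non-empty finite `T`

`I(P, Γ) ≤ C (|P|^(2/3) |Γ|^(2/3) + |P| + |Γ| + |Γ| (|P+T|^(2/3) / |T|^(1/3) + |P+T| / |T|))`

and for `|P| = |Γ| = n` (with `T = P`)  `I(P, Γ) ≤ C (|P+P| / |P|)^(2/3) n^(4/3)`.

The translates of an irreducible curve of degree at least two have two degrees of freedom; the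
theorem of Pach and Sharir for them is proved with ranks of arcs (total variation) and greedy
blocks, without crossing numbers or cuttings.
-/

namespace Pool.Agent.Results.MP_d34661_co.SmallSumset

open scoped Classical

/-- `γ` is a curve of degree at most `k`: the real zero set of a non-zero polynomial of degree at
most `k`. -/
def IsCurve (k : ℕ) (γ : Set (ℝ × ℝ)) : Prop :=
  ∃ f : MvPolynomial (Fin 2) ℝ, f ≠ 0 ∧ f.totalDegree ≤ k ∧
    γ = {p : ℝ × ℝ | MvPolynomial.eval ![p.1, p.2] f = 0}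

/-- The number of incidences: pairs (point of `P`, curve of `Γ` through it). -/
noncomputable def incidences (P : Finset (ℝ × ℝ)) (Γ : Finset (Set (ℝ × ℝ))) : ℕ :=
  Set.ncard {q : (ℝ × ℝ) × Set (ℝ × ℝ) | q.1 ∈ P ∧ q.2 ∈ Γ ∧ q.1 ∈ q.2}

/-- There are no `s` points of `P` and `t` curves of `Γ` such that all these points lie on all
these curves. -/
def KFree (s t : ℕ) (P : Finset (ℝ × ℝ)) (Γ : Finset (Set (ℝ × ℝ))) : Prop :=
  ¬ ∃ S ⊆ P, ∃ T ⊆ Γ, S.card = s ∧ T.card = t ∧ ∀ p ∈ S, ∀ γ ∈ T, p ∈ γ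

/-- The number of elements of the sumset `P + T`. -/
noncomputable def sumCard (P T : Finset (ℝ × ℝ)) : ℕ :=
  Set.ncard {v : ℝ × ℝ | ∃ p ∈ P, ∃ t ∈ T, v = p + t}

open scoped Pointwise in
private lemma sumCard_eq (P T : Finset (ℝ × ℝ)) : sumCard P T = (P + T).card := by
  unfold sumCard
  rw [← Set.ncard_coe_finset]
  congr 1
  ext v
  simp only [Set.mem_ofPred_eq, Finset.coe_add, Set.mem_add, Finset.mem_coe]
  constructor
  · rintro ⟨p, hp, t, ht, rfl⟩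
    exact ⟨p, hp, t, ht, rfl⟩
  · rintro ⟨p, hp, t, ht, rfl⟩
    exact ⟨p, hp, t, ht, rfl⟩

private lemma inc_eq (P : Finset (ℝ × ℝ)) (Γ : Finset (Set (ℝ × ℝ))) :
    incidences P Γ = ∑ γ ∈ Γ, (P.filter fun p => p ∈ γ).card := by
  unfold incidences
  have h : {q : (ℝ × ℝ) × Set (ℝ × ℝ) | q.1 ∈ P ∧ q.2 ∈ Γ ∧ q.1 ∈ q.2} =
      (((P ×ˢ Γ).filter fun q => q.1 ∈ q.2 : Finset ((ℝ × ℝ) × Set (ℝ × ℝ))) :
        Set ((ℝ × ℝ) × Set (ℝ × ℝ))) := by
    ext q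
    simp [and_assoc]
  rw [h, Set.ncard_coe_finset, Finset.card_filter, Finset.sum_product_right]
  refine Finset.sum_congr rfl fun γ _ => ?_
  rw [Finset.card_filter]

private lemma reals (n K : ℝ) (hn1 : 1 ≤ n) (hK1 : 1 ≤ K) (hKn : K ≤ n) :
    n ^ (2 / 3 : ℝ) * n ^ (2 / 3 : ℝ) + n + n + n * ((K * n) ^ (2 / 3 : ℝ) / n ^ (1 / 3 : ℝ) + K) ≤
      5 * (K ^ (2 / 3 : ℝ) * n ^ (4 / 3 : ℝ)) := by
  have hn0 : 0 < n := by linarith
  have hK0 : 0 < K := by linarith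
  have e0 : n ^ (2 / 3 : ℝ) * n ^ (2 / 3 : ℝ) = n ^ (4 / 3 : ℝ) := by
    rw [← Real.rpow_add hn0]; norm_num
  have e1 : n ≤ n ^ (4 / 3 : ℝ) := by
    calc n = n ^ (1 : ℝ) := (Real.rpow_one n).symm
      _ ≤ n ^ (4 / 3 : ℝ) := Real.rpow_le_rpow_of_exponent_le hn1 (by norm_num)
  have e2 : 1 ≤ K ^ (2 / 3 : ℝ) := Real.one_le_rpow hK1 (by norm_num)
  have e30 : n ^ (4 / 3 : ℝ) * n ^ (1 / 3 : ℝ) = n * n ^ (2 / 3 : ℝ) := by
    have e31 : n * n ^ (2 / 3 : ℝ) = n ^ (1 : ℝ) * n ^ (2 / 3 : ℝ) := by rw [Real.rpow_one]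
    rw [e31, ← Real.rpow_add hn0, ← Real.rpow_add hn0]
    congr 1
    norm_num
  have e3 : n * ((K * n) ^ (2 / 3 : ℝ) / n ^ (1 / 3 : ℝ)) = K ^ (2 / 3 : ℝ) * n ^ (4 / 3 : ℝ) := by
    rw [Real.mul_rpow hK0.le hn0.le]
    have e31 : (0:ℝ) < n ^ (1 / 3 : ℝ) := Real.rpow_pos_of_pos hn0 _
    rw [mul_div_assoc', div_eq_iff e31.ne', mul_assoc, e30]
    ring
  have e4 : n * K ≤ K ^ (2 / 3 : ℝ) * n ^ (4 / 3 : ℝ) := by
    have e5 : K ^ (2 / 3 : ℝ) * K ^ (1 / 3 : ℝ) = K := by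
      rw [← Real.rpow_add hK0, show (2 / 3 : ℝ) + 1 / 3 = 1 by norm_num, Real.rpow_one]
    have e6 : K ^ (1 / 3 : ℝ) ≤ n ^ (1 / 3 : ℝ) := Real.rpow_le_rpow hK0.le hKn (by norm_num)
    have e7 : n * n ^ (1 / 3 : ℝ) = n ^ (4 / 3 : ℝ) := by
      have e31 : n * n ^ (1 / 3 : ℝ) = n ^ (1 : ℝ) * n ^ (1 / 3 : ℝ) := by rw [Real.rpow_one]
      rw [e31, ← Real.rpow_add hn0]
      congr 1
      norm_num
    calc n * K = n * (K ^ (2 / 3 : ℝ) * K ^ (1 / 3 : ℝ)) := by rw [e5]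
      _ ≤ n * (K ^ (2 / 3 : ℝ) * n ^ (1 / 3 : ℝ)) := by
          apply mul_le_mul_of_nonneg_left _ hn0.le
          exact mul_le_mul_of_nonneg_left e6 (by positivity)
      _ = K ^ (2 / 3 : ℝ) * (n * n ^ (1 / 3 : ℝ)) := by ring
      _ = _ := by rw [e7]
  have hN : 0 ≤ n ^ (4 / 3 : ℝ) := by positivity
  have e8 : n ^ (4 / 3 : ℝ) ≤ K ^ (2 / 3 : ℝ) * n ^ (4 / 3 : ℝ) := by
    nlinarith
  rw [e0, mul_add n, e3]
  linarith

/-- **Main theorem.** For all `s`, `t`, `k` there is a constant `C` such that for every finite set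
`P` of points and every finite set `Γ` of curves of degree at most `k` with `K_{s,t}`-free incidence
graph: (1) for every non-empty finite `T`,
`I ≤ C (|P|^(2/3)|Γ|^(2/3) + |P| + |Γ| + |Γ| (|P+T|^(2/3)/|T|^(1/3) + |P+T|/|T|))`; and
(2) if `|Γ| = |P|` then `I ≤ C (|P+P|/|P|)^(2/3) |P|^(4/3)`. -/
theorem result (s t k : ℕ) : ∃ C : ℝ, ∀ (P : Finset (ℝ × ℝ)) (Γ : Finset (Set (ℝ × ℝ))),
    (∀ γ ∈ Γ, IsCurve k γ) → KFree s t P Γ →
      (∀ T : Finset (ℝ × ℝ), T.Nonempty →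
        (incidences P Γ : ℝ) ≤
          C * ((P.card : ℝ) ^ (2 / 3 : ℝ) * (Γ.card : ℝ) ^ (2 / 3 : ℝ) + P.card + Γ.card +
            Γ.card * ((sumCard P T : ℝ) ^ (2 / 3 : ℝ) / (T.card : ℝ) ^ (1 / 3 : ℝ) +
              sumCard P T / T.card))) ∧
      (Γ.card = P.card →
        (incidences P Γ : ℝ) ≤
          C * ((sumCard P P : ℝ) / P.card) ^ (2 / 3 : ℝ) * (P.card : ℝ) ^ (4 / 3 : ℝ)) := by
  obtain ⟨C, hC, h⟩ := H22.PS.main s t k
  refine ⟨5 * C, ?_⟩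
  intro P Γ hΓ hK
  have h1 : ∀ T : Finset (ℝ × ℝ), T.Nonempty →
        (incidences P Γ : ℝ) ≤
          C * ((P.card : ℝ) ^ (2 / 3 : ℝ) * (Γ.card : ℝ) ^ (2 / 3 : ℝ) + P.card + Γ.card +
            Γ.card * ((sumCard P T : ℝ) ^ (2 / 3 : ℝ) / (T.card : ℝ) ^ (1 / 3 : ℝ) +
              sumCard P T / T.card)) := by
    intro T hT
    rw [inc_eq, sumCard_eq]
    exact h P Γ hΓ hK T hT
  refine ⟨?_, ?_⟩
  · intro T hT
    refine (h1 T hT).trans ?_
    apply mul_le_mul_of_nonneg_right _ (by positivity)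
    linarith
  · intro hcard
    rcases P.eq_empty_or_nonempty with rfl | hP
    · have : incidences ∅ Γ = 0 := by
        rw [inc_eq]; simp
      rw [this]
      simp
    have h2 := h1 P hP
    rw [hcard] at h2
    have hn0 : (0:ℝ) < P.card := by exact_mod_cast hP.card_pos
    have hn1 : (1:ℝ) ≤ P.card := by exact_mod_cast hP.card_pos
    have hK1 : 1 ≤ (sumCard P P : ℝ) / P.card := by
      rw [one_le_div hn0, sumCard_eq]
      have := Finset.card_le_card_add_left (s := P) (t := P) hP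
      exact_mod_cast this
    have hKn : (sumCard P P : ℝ) / P.card ≤ P.card := by
      rw [div_le_iff₀ hn0, sumCard_eq]
      have := Finset.card_add_le (s := P) (t := P)
      exact_mod_cast this
    have h3 := reals (P.card : ℝ) ((sumCard P P : ℝ) / P.card) hn1 hK1 hKn
    rw [div_mul_cancel₀ (sumCard P P : ℝ) hn0.ne'] at h3
    calc (incidences P Γ : ℝ) ≤ _ := h2
      _ ≤ C * (5 * (((sumCard P P : ℝ) / P.card) ^ (2 / 3 : ℝ) * (P.card : ℝ) ^ (4 / 3 : ℝ))) :=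
          mul_le_mul_of_nonneg_left h3 hC
      _ = _ := by ring

end Pool.Agent.Results.MP_d34661_co.SmallSumset
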